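import Pool.Agent.H67.AG.T1

/-!
TW: the tower is invariant (ABSOLUTE GAP, MP_c59857_nt).
-/

set_option autoImplicit false

open MeasureTheory ProbabilityTheory Filter Topology Finset

namespace Pool.Agent.H39.AG

open Pool.Agent.H67.AG

theorem pf_TW (h : T_NXI) : T_TW := by
  intro X _ _ μ _ T hT j
  induction j with
  | zero =>
    rw [tow_zero]
    intro A hA
    have hA' : MeasurableSet[(⊥ : MeasurableSpace X)] A := hA
    rw [MeasurableSpace.measurableSet_bot_iff] at hA'
    rcases hA' with rfl | rfl
    · simp only [Set.preimage_empty]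
      exact ⟨@MeasurableSet.empty X (triv X).1, @MeasurableSet.empty X (triv X).1⟩
    · simp only [Set.preimage_univ]
      exact ⟨@MeasurableSet.univ X (triv X).1, @MeasurableSet.univ X (triv X).1⟩
  | succ j ih =>
    rw [tow_succ]
    exact (h X μ T (tow μ T j) hT ih).1

end Pool.Agent.H39.AG
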