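import Pool.Agent.H39.AG.Common

/-!
# Row K3C of `allg_modules` (MP_7ecdd4_nt): the triples of class 3
-/

set_option autoImplicit false

open Pool.Agent.H38.RB Pool.Agent.H38.PS Pool.Agent.H82.RD Pool.Agent.H38.AB Pool.Agent.H38.AG

namespace Pool.Agent.H39.AG

open Pool.Agent.H96.RD (factorization_le_log natAbs_sq_modEq not_dvd_both primeFactors_subset)

theorem prod_fact {m : ℕ} (hm : m ≠ 0) {P : Finset ℕ} (h : m.primeFactors ⊆ P) :
    ∏ p ∈ P, p ^ m.factorization p = m := by
  rw [← Finset.prod_subset h]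
  · have h1 := Nat.prod_factorization_pow_eq_self hm
    rwa [Finsupp.prod, Nat.support_factorization] at h1
  · intro p _ hp
    have h1 : m.factorization p = 0 := by
      rw [← Finsupp.notMem_support_iff, Nat.support_factorization]
      exact hp
    rw [h1, pow_zero]

theorem natAbs_le_ht (x : Fin 3 → ℤ) (i : Fin 3) : (x i).natAbs ≤ ht x := by
  unfold ht
  fin_cases i
  · exact le_max_left _ _
  · exact (le_max_left _ _).trans (le_max_right _ _)
  · exact (le_max_right _ _).trans (le_max_right _ _)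

theorem pow_dvd_of {m q e : ℕ} (h : e ≤ m.factorization q) : q ^ e ∣ m :=
  (Nat.pow_dvd_pow q h).trans (Nat.ordProj_dvd m q)

/-- the exponents are small -/
theorem fact_le {X : ℝ} (hX : 2 ≤ X) {x : Fin 3 → ℤ} (hA : Adm x) (hH : Real.log (ht x) ≤ X ^ 20)
    (i : Fin 3) {p : ℕ} : (x i).natAbs.factorization p ≤ ⌈X ^ (30 : ℝ)⌉₊ := by
  by_cases hp : p.Prime
  · have h1 := factorization_le_log (Int.natAbs_ne_zero.2 (hA.1 i)) (natAbs_le_ht x i) hp
    have h2 : X ^ (30 : ℝ) = X ^ (30 : ℕ) := by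
      rw [← Real.rpow_natCast]; norm_num
    have h3 : 2 * X ^ 20 ≤ X ^ 30 := by
      have h4 : (2 : ℝ) ≤ X ^ 10 := by
        calc (2 : ℝ) ≤ X := hX
          _ = X ^ 1 := (pow_one X).symm
          _ ≤ X ^ 10 := pow_le_pow_right₀ (by linarith) (by norm_num)
      calc 2 * X ^ 20 ≤ X ^ 10 * X ^ 20 := mul_le_mul_of_nonneg_right h4 (by positivity)
        _ = X ^ 30 := by rw [← pow_add]
    have h5 : ((x i).natAbs.factorization p : ℝ) ≤ (⌈X ^ (30 : ℝ)⌉₊ : ℝ) := by
      rw [h2]
      calc ((x i).natAbs.factorization p : ℝ) ≤ 2 * Real.log (ht x) := h1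
        _ ≤ 2 * X ^ 20 := by linarith
        _ ≤ X ^ 30 := h3
        _ ≤ _ := Nat.le_ceil _
    exact_mod_cast h5
  · rw [Nat.factorization_eq_zero_of_not_prime _ hp]
    exact Nat.zero_le _

theorem K3_KG {X : ℝ} (hX : 2 ≤ X) {ρ : ℝ} {h : ℕ} {κ c K : ℝ} {x : Fin 3 → ℤ}
    (hR : x ∈ Rd X ρ) (hH : Real.log (ht x) ≤ X ^ 20) (hx : K3 X h κ c K x) :
    KG X h κ c 1 K x := by
  classical
  obtain ⟨a, b, d, q, S, hab, had, hbd, hqa, hS, hcard, hY, hq, hsol⟩ := hx
  have hA : Adm x := hR.1
  have hne : ∀ i, (x i).natAbs ≠ 0 := fun i => Int.natAbs_ne_zero.2 (hA.1 i)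
  set P := (x b).natAbs.primeFactors ∪ (x d).natAbs.primeFactors with hP
  have hqp := Nat.prime_of_mem_primeFactors hqa
  have hqP : q ∉ P := by
    intro hh
    rcases Finset.mem_union.1 hh with h1 | h1
    · exact not_dvd_both hA hab hqp (Nat.dvd_of_mem_primeFactors hqa)
        (Nat.dvd_of_mem_primeFactors h1)
    · exact not_dvd_both hA had hqp (Nat.dvd_of_mem_primeFactors hqa)
        (Nat.dvd_of_mem_primeFactors h1)
  have hSR : S ∪ (P \ S) = P := Finset.union_sdiff_of_subset hS
  have hPsub : P ⊆ (pr x).primeFactors :=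
    Finset.union_subset (primeFactors_subset hA b) (primeFactors_subset hA d)
  have hqe : q ^ ⌈Real.log X ^ K⌉₊ ∣ (x a).natAbs := by
    refine pow_dvd_of (Nat.ceil_le.2 ?_)
    exact hq
  have hz : ∀ p, (x b).natAbs.factorization p = 0 ∨ (x d).natAbs.factorization p = 0 := by
    intro p
    by_contra hcon
    rw [not_or] at hcon
    have h1 : p ∈ (x b).natAbs.primeFactors := by
      rw [← Nat.support_factorization]
      exact Finsupp.mem_support_iff.2 hcon.1
    have h2 : p ∈ (x d).natAbs.primeFactors := by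
      rw [← Nat.support_factorization]
      exact Finsupp.mem_support_iff.2 hcon.2
    exact not_dvd_both hA hbd (Nat.prime_of_mem_primeFactors h1)
      (Nat.dvd_of_mem_primeFactors h1) (Nat.dvd_of_mem_primeFactors h2)
  refine ⟨q, 1, S, P \ S, hqp, fun hh => hqP (hS hh), fun hh => hqP (Finset.mem_sdiff.1 hh).1,
    Finset.disjoint_sdiff, ?_, hcard, hY, le_rfl, Nat.coprime_one_left q, ?_, ?_, ?_, ?_, ?_⟩
  · rw [hSR]
    exact Finset.insert_subset (primeFactors_subset hA a hqa) hPsub
  · rw [Nat.primeFactors_one, Finset.empty_union]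
    exact Finset.sdiff_subset.trans hPsub
  · rw [Nat.primeFactors_one]
    exact Finset.disjoint_empty_left _
  · rw [Nat.cast_one, Real.log_one, Real.rpow_one]
    exact Real.log_nonneg (by linarith)
  · refine ⟨fun p => ((x b).natAbs.factorization p : ℤ) - ((x d).natAbs.factorization p : ℤ),
      ?_, ?_, ?_⟩
    · intro p
      have h1 := fact_le hX hA hH b (p := p)
      have h2 := fact_le hX hA hH d (p := p)
      change |((x b).natAbs.factorization p : ℤ) - ((x d).natAbs.factorization p : ℤ)| ≤ _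
      rw [abs_le]
      constructor <;> omega
    · intro p hp
      have h1 := (Finset.mem_sdiff.1 hp).1
      rcases Finset.mem_union.1 h1 with h2 | h2
      · rw [← Nat.support_factorization] at h2
        have h3 := Finsupp.mem_support_iff.1 h2
        have h4 := hz p
        simp only [ne_eq]
        omega
      · rw [← Nat.support_factorization] at h2
        have h3 := Finsupp.mem_support_iff.1 h2
        have h4 := hz p
        simp only [ne_eq]
        omega
    · rw [hSR, one_mul]
      have e1 : ∏ p ∈ P, p ^ (((x b).natAbs.factorization p : ℤ) -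
          ((x d).natAbs.factorization p : ℤ)).toNat = (x b).natAbs := by
        rw [← prod_fact (hne b) (P := P) Finset.subset_union_left]
        refine Finset.prod_congr rfl fun p _ => ?_
        have h4 := hz p
        rw [prod_fact (hne b) (P := P) Finset.subset_union_left]
        congr 1
        omega
      have e2 : ∏ p ∈ P, p ^ (-(((x b).natAbs.factorization p : ℤ) -
          ((x d).natAbs.factorization p : ℤ))).toNat = (x d).natAbs := by
        rw [← prod_fact (hne d) (P := P) Finset.subset_union_right]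
        refine Finset.prod_congr rfl fun p _ => ?_
        have h4 := hz p
        rw [prod_fact (hne d) (P := P) Finset.subset_union_right]
        congr 1
        omega
      rw [e1, e2]
      exact natAbs_sq_modEq (Pool.Agent.H18.AB.sum3 hA.2.2 hab had hbd) hqe
  · rw [hSR]
    exact hsol

theorem pf_K3C (hCNG : T_CNG) (hTHB : T_THB) (hQR : T_QR) (hTFI : T_TFI) : T_K3C := by
  intro h κ c hκ hc
  obtain ⟨K, ρ, c', C, X₀, hK, hρ, hc', hc2, hC, hX₀, hmain⟩ :=
    count_KG hCNG hQR h κ c 1 hκ hc le_rfl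
  obtain ⟨X₁, hX₁, hthb⟩ := hTHB
  obtain ⟨C', hC', hfin⟩ := from_large hTFI (X₀ := max X₀ X₁) hc2 hC
    (fun X => {x | x ∈ Rd X ρ ∧ K3 X h κ c K x}) (fun X x hx => ⟨hx.1.1, hx.1.2.1⟩)
    (hX₀.trans (le_max_left _ _)) (fun X hX => by
      have hX1 : X₀ ≤ X := (le_max_left _ _).trans hX
      have hX2 : X₁ ≤ X := (le_max_right _ _).trans hX
      obtain ⟨h1, h2⟩ := hmain X hX1
      refine le_trans ?_ h2
      have hsub : {x | x ∈ Rd X ρ ∧ K3 X h κ c K x} ⊆
          {x | x ∈ Rd X ρ ∧ KG X h κ c 1 K x} := fun x hx =>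
        ⟨hx.1, K3_KG (hX₀.trans hX1) hx.1 (hthb X x hX2 hx.1.1 hx.1.2.1) hx.2⟩
      exact_mod_cast Set.ncard_le_ncard hsub h1)
  exact ⟨K, ρ, c', C', hK, hρ, hc', hC', hfin⟩

end Pool.Agent.H39.AG
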