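import Pool.Agent.H39.AG.K3C

/-!
# Row K4C of `allg_modules` (MP_7ecdd4_nt): the triples of class 4
-/

set_option autoImplicit false

open Pool.Agent.H38.RB Pool.Agent.H38.PS Pool.Agent.H82.RD Pool.Agent.H38.AB Pool.Agent.H38.AG

namespace Pool.Agent.H39.AG

open Pool.Agent.H96.RD (natAbs_sq_modEq not_dvd_both primeFactors_subset)

theorem K4_KG {X : ℝ} (hX : 2 ≤ X) {ρ : ℝ} {h : ℕ} {κ c K' K : ℝ} {x : Fin 3 → ℤ}
    (hR : x ∈ Rd X ρ) (hH : Real.log (ht x) ≤ X ^ 20) (hx : K4 X h κ c K' K x) :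
    KG X h κ c K' K x := by
  classical
  obtain ⟨a, b, d, q, S, hab, had, hbd, hqb, hS, hcard, hY, hm, hq, hsol⟩ := hx
  have hA : Adm x := hR.1
  have hne : ∀ i, (x i).natAbs ≠ 0 := fun i => Int.natAbs_ne_zero.2 (hA.1 i)
  set P := (x d).natAbs.primeFactors with hP
  have hqp := Nat.prime_of_mem_primeFactors hqb
  have hqP : q ∉ P := fun h1 => not_dvd_both hA hbd hqp (Nat.dvd_of_mem_primeFactors hqb)
    (Nat.dvd_of_mem_primeFactors h1)
  have hSR : S ∪ (P \ S) = P := Finset.union_sdiff_of_subset hS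
  have hPsub : P ⊆ (pr x).primeFactors := primeFactors_subset hA d
  have hqe : q ^ ⌈Real.log X ^ K⌉₊ ∣ (x b).natAbs := pow_dvd_of (Nat.ceil_le.2 hq)
  refine ⟨q, (x a).natAbs, S, P \ S, hqp, fun hh => hqP (hS hh),
    fun hh => hqP (Finset.mem_sdiff.1 hh).1, Finset.disjoint_sdiff, ?_, hcard, hY,
    Nat.one_le_iff_ne_zero.2 (hne a), ?_, ?_, ?_, hm, ?_, ?_⟩
  · rw [hSR]
    exact Finset.insert_subset (primeFactors_subset hA b hqb) hPsub
  · refine Nat.Coprime.symm ((Nat.Prime.coprime_iff_not_dvd hqp).2 fun h1 => ?_)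
    exact not_dvd_both hA hab hqp h1 (Nat.dvd_of_mem_primeFactors hqb)
  · exact Finset.union_subset (primeFactors_subset hA a) (Finset.sdiff_subset.trans hPsub)
  · rw [hSR, Finset.disjoint_left]
    intro p h1 h2
    exact not_dvd_both hA had (Nat.prime_of_mem_primeFactors h1)
      (Nat.dvd_of_mem_primeFactors h1) (Nat.dvd_of_mem_primeFactors h2)
  · refine ⟨fun p => ((x d).natAbs.factorization p : ℤ), ?_, ?_, ?_⟩
    · intro p
      have h2 := fact_le hX hA hH d (p := p)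
      change |((x d).natAbs.factorization p : ℤ)| ≤ _
      rw [abs_le]
      constructor <;> omega
    · intro p hp
      have h2 := (Finset.mem_sdiff.1 hp).1
      rw [hP, ← Nat.support_factorization] at h2
      have h3 := Finsupp.mem_support_iff.1 h2
      change ((x d).natAbs.factorization p : ℤ) ≠ 0
      exact_mod_cast h3
    · rw [hSR]
      have e1 : ∏ p ∈ P, p ^ ((x d).natAbs.factorization p : ℤ).toNat = (x d).natAbs := by
        simp only [Int.toNat_natCast]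
        exact prod_fact (hne d) (P := P) (Finset.Subset.refl _)
      have e2 : ∏ p ∈ P, p ^ (-((x d).natAbs.factorization p : ℤ)).toNat = 1 := by
        refine Finset.prod_eq_one fun p _ => ?_
        have : (-((x d).natAbs.factorization p : ℤ)).toNat = 0 := by omega
        rw [this, pow_zero]
      rw [e1, e2, mul_one]
      refine natAbs_sq_modEq (a := x b) (b := x d) (c := x a) ?_ hqe
      exact Pool.Agent.H18.AB.sum3 hA.2.2 hbd (Ne.symm hab) (Ne.symm had)
  · rw [hSR]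
    exact hsol

theorem pf_K4C (hCNG : T_CNG) (hTHB : T_THB) (hQR : T_QR) (hTFI : T_TFI) : T_K4C := by
  intro h κ c K' hκ hc hK'
  obtain ⟨K, ρ, c', C, X₀, hK, hρ, hc', hc2, hC, hX₀, hmain⟩ :=
    count_KG hCNG hQR h κ c K' hκ hc hK'
  obtain ⟨X₁, hX₁, hthb⟩ := hTHB
  obtain ⟨C', hC', hfin⟩ := from_large hTFI (X₀ := max X₀ X₁) hc2 hC
    (fun X => {x | x ∈ Rd X ρ ∧ K4 X h κ c K' K x}) (fun X x hx => ⟨hx.1.1, hx.1.2.1⟩)
    (hX₀.trans (le_max_left _ _)) (fun X hX => by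
      have hX1 : X₀ ≤ X := (le_max_left _ _).trans hX
      have hX2 : X₁ ≤ X := (le_max_right _ _).trans hX
      obtain ⟨h1, h2⟩ := hmain X hX1
      refine le_trans ?_ h2
      have hsub : {x | x ∈ Rd X ρ ∧ K4 X h κ c K' K x} ⊆
          {x | x ∈ Rd X ρ ∧ KG X h κ c K' K x} := fun x hx =>
        ⟨hx.1, K4_KG (hX₀.trans hX1) hx.1 (hthb X x hX2 hx.1.1 hx.1.2.1) hx.2⟩
      exact_mod_cast Set.ncard_le_ncard hsub h1)
  exact ⟨K, ρ, c', C', hK, hρ, hc', hC', hfin⟩

end Pool.Agent.H39.AG
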