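import Pool.Agent.H38.AG.Targets
import Pool.Agent.H96.RD.THB
import Pool.Agent.H18.AB.Base

/-!
# Common count for the classes 3 and 4 (rows K3C and K4C of `allg_modules`, MP_7ecdd4_nt)
-/

set_option autoImplicit false

open Pool.Agent.H38.RB Pool.Agent.H38.PS Pool.Agent.H82.RD Pool.Agent.H38.AB Pool.Agent.H38.AG

namespace Pool.Agent.H39.AG

/-- data of a triple of class 3 or 4 -/
def KG (X : ℝ) (h : ℕ) (κ c K' K : ℝ) (x : Fin 3 → ℤ) : Prop :=
  ∃ (q m : ℕ) (S R : Finset ℕ), q.Prime ∧ q ∉ S ∧ q ∉ R ∧ Disjoint S R ∧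
    insert q (S ∪ R) ⊆ (pr x).primeFactors ∧ R.card ≤ h ∧
    (q : ℝ) * pd S ≤ X ^ (2 / 3 - c) ∧ 1 ≤ m ∧ m.Coprime q ∧
    m.primeFactors ∪ R ⊆ (pr x).primeFactors ∧ Disjoint m.primeFactors (S ∪ R) ∧
    Real.log m ≤ Real.log X ^ K' ∧ Dpc q ⌈Real.log X ^ K⌉₊ ⌈X ^ (30 : ℝ)⌉₊ S m R ∧
    x ∈ Sol κ (insert q (S ∪ R))

/-- size of a finite union -/
theorem ncard_biUnion {ι α : Type} [DecidableEq ι] (I : Finset ι) (A : ι → Set α) (B : ℝ)
    (hf : ∀ i ∈ I, (A i).Finite) (hB : ∀ i ∈ I, ((A i).ncard : ℝ) ≤ B) :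
    (⋃ i ∈ I, A i).Finite ∧ ((⋃ i ∈ I, A i).ncard : ℝ) ≤ I.card * B := by
  induction I using Finset.induction_on with
  | empty => simp
  | insert a s ha ih =>
    obtain ⟨h1, h2⟩ := ih (fun i hi => hf i (Finset.mem_insert_of_mem hi))
      (fun i hi => hB i (Finset.mem_insert_of_mem hi))
    rw [Finset.set_biUnion_insert, Finset.card_insert_of_notMem ha]
    refine ⟨(hf a (Finset.mem_insert_self _ _)).union h1, ?_⟩
    have h3 := Set.ncard_union_le (A a) (⋃ i ∈ s, A i)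
    have h4 := hB a (Finset.mem_insert_self _ _)
    have h5 : ((A a ∪ ⋃ i ∈ s, A i).ncard : ℝ) ≤ (A a).ncard + (⋃ i ∈ s, A i).ncard := by
      exact_mod_cast h3
    push_cast
    linarith

open Classical in
/-- the pairs `(m, R)` for given `q` and `S` -/
noncomputable def FF (X K' : ℝ) (e Bd h w q : ℕ) (S : Finset ℕ) : Finset (ℕ × Finset ℕ) :=
  ((Finset.Icc 1 ⌊Real.exp (Real.log X ^ K')⌋₊) ×ˢ (Finset.range (⌊X⌋₊ + 1)).powerset).filter
    fun f => Real.log f.1 ≤ Real.log X ^ K' ∧ f.1.Coprime q ∧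
      (∀ p ∈ f.1.primeFactors, p ∉ S ∧ p ∉ f.2 ∧ (p : ℝ) ≤ X) ∧
      (∀ p ∈ f.2, p.Prime ∧ p ≠ q ∧ p ∉ S ∧ (p : ℝ) ≤ X) ∧ f.2.card ≤ h ∧
      f.1.primeFactors.card + f.2.card ≤ w ∧ (insert q (S ∪ f.2)).card ≤ w ∧
      Dpc q e Bd S f.1 f.2

/-- small heights -/
theorem from_large (hTFI : T_TFI) {c' C X₀ : ℝ} (hc2 : c' ≤ 1 / 2)
    (hC : 0 < C) (A : ℝ → Set (Fin 3 → ℤ))
    (hA : ∀ X, A X ⊆ {x | Adm x ∧ (pd (pr x).primeFactors : ℝ) ≤ X}) (hX0 : 2 ≤ X₀)
    (hl : ∀ X, X₀ ≤ X → ((A X).ncard : ℝ) ≤ C * X ^ (2 / 3 - c')) :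
    ∃ C' : ℝ, 0 < C' ∧ ∀ X, 2 ≤ X → (A X).Finite ∧
      ((A X).ncard : ℝ) ≤ C' * X ^ (2 / 3 - c') := by
  obtain ⟨D, hD, hT⟩ := hTFI 1 one_pos
  have hX00 : (0 : ℝ) < X₀ := by linarith
  refine ⟨C + D * X₀ ^ (2 / 3 + 1 : ℝ), by positivity, ?_⟩
  intro X hX
  obtain ⟨h1, h2⟩ := hT X (by linarith)
  have hf : (A X).Finite := h1.subset (hA X)
  refine ⟨hf, ?_⟩
  have hXp : (0 : ℝ) ≤ X ^ (2 / 3 - c') := by positivity
  by_cases hX1 : X₀ ≤ X
  · refine (hl X hX1).trans (mul_le_mul_of_nonneg_right ?_ hXp)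
    have : (0 : ℝ) ≤ D * X₀ ^ (2 / 3 + 1 : ℝ) := by positivity
    linarith
  · have h3 : ((A X).ncard : ℝ) ≤
        (({x | Adm x ∧ (pd (pr x).primeFactors : ℝ) ≤ X} : Set (Fin 3 → ℤ)).ncard : ℝ) := by
      exact_mod_cast Set.ncard_le_ncard (hA X) h1
    have h4 : X ^ (2 / 3 + 1 : ℝ) ≤ X₀ ^ (2 / 3 + 1 : ℝ) :=
      Real.rpow_le_rpow (by linarith) (not_le.1 hX1).le (by norm_num)
    have h5 : (1 : ℝ) ≤ X ^ (2 / 3 - c') := Real.one_le_rpow (by linarith) (by linarith)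
    calc ((A X).ncard : ℝ) ≤ D * X ^ (2 / 3 + 1 : ℝ) := h3.trans h2
      _ ≤ D * X₀ ^ (2 / 3 + 1 : ℝ) := mul_le_mul_of_nonneg_left h4 hD.le
      _ ≤ (C + D * X₀ ^ (2 / 3 + 1 : ℝ)) * 1 := by linarith
      _ ≤ (C + D * X₀ ^ (2 / 3 + 1 : ℝ)) * X ^ (2 / 3 - c') :=
          mul_le_mul_of_nonneg_left h5 (by positivity)

/-- the main count -/
theorem count_KG (hCNG : T_CNG) (hQR : T_QR) (h : ℕ) (κ c K' : ℝ) (hκ : κ < 1) (hc : 0 < c)
    (hK' : 1 ≤ K') : ∃ K ρ c' C X₀ : ℝ, 1 ≤ K ∧ 0 < ρ ∧ 0 < c' ∧ c' ≤ 1 / 2 ∧ 0 < C ∧ 2 ≤ X₀ ∧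
    ∀ X : ℝ, X₀ ≤ X → {x | x ∈ Rd X ρ ∧ KG X h κ c K' K x}.Finite ∧
      ({x | x ∈ Rd X ρ ∧ KG X h κ c K' K x}.ncard : ℝ) ≤ C * X ^ (2 / 3 - c') := by
  classical
  obtain ⟨K, X₁, hK, hX₁, hcng⟩ := hCNG h K' hK'
  obtain ⟨D, hD, hqr⟩ := hQR κ hκ
  -- parameters
  set ρ : ℝ := min (c / (2 * (K' + 12))) 1 with hρdef
  have hρ0 : 0 < ρ := lt_min (by positivity) one_pos
  have hρ1 : ρ ≤ 1 := min_le_right _ _
  have hρc : (K' + 12) * ρ ≤ c / 2 := by
    have h1 : ρ ≤ c / (2 * (K' + 12)) := min_le_left _ _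
    calc (K' + 12) * ρ ≤ (K' + 12) * (c / (2 * (K' + 12))) :=
          mul_le_mul_of_nonneg_left h1 (by linarith)
      _ = c / 2 := by field_simp
  -- large X
  have ev1 : ∀ᶠ X : ℝ in Filter.atTop, Real.log X ^ (K' + 1) ≤ X ^ (30 : ℝ) := by
    have h1 := (isLittleO_log_rpow_rpow_atTop (K' + 1) (by norm_num : (0 : ℝ) < 30)).bound
      (by norm_num : (0 : ℝ) < 1)
    filter_upwards [h1, Filter.eventually_ge_atTop (1 : ℝ)] with X h2 hX
    have h3 : (0 : ℝ) ≤ Real.log X := Real.log_nonneg hX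
    rw [Real.norm_of_nonneg (by positivity), Real.norm_of_nonneg (by positivity)] at h2
    linarith
  have ev2 : ∀ᶠ X : ℝ in Filter.atTop, 1 + Real.log D ≤ Real.log (Real.log X) :=
    (Real.tendsto_log_atTop.comp Real.tendsto_log_atTop).eventually_ge_atTop _
  obtain ⟨X₂, hX₂⟩ := (ev1.and ev2).exists_forall_of_atTop
  refine ⟨K, ρ, min (c / 2) (1 / 2), D / ρ, max X₁ (max X₂ 2), hK, hρ0,
    lt_min (by positivity) (by norm_num), min_le_right _ _, by positivity,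
    (le_max_right _ _).trans (le_max_right _ _), ?_⟩
  intro X hX
  have hXX1 : X₁ ≤ X := (le_max_left _ _).trans hX
  have hXX2 : X₂ ≤ X := ((le_max_left _ _).trans (le_max_right _ _)).trans hX
  have hX2 : (2 : ℝ) ≤ X := ((le_max_right _ _).trans (le_max_right _ _)).trans hX
  obtain ⟨hev1, hev2⟩ := hX₂ X hXX2
  have hX0 : (0 : ℝ) < X := by linarith
  have hX1 : (1 : ℝ) ≤ X := by linarith
  have hlogD : 0 ≤ Real.log D := Real.log_nonneg hD
  have hll : 1 ≤ Real.log (Real.log X) := by linarith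
  have hlog0 : 0 < Real.log X := Real.log_pos (by linarith)
  set w : ℕ := ⌊ρ * Real.log X / Real.log (Real.log X)⌋₊ with hw
  have hw1 : (w : ℝ) ≤ ρ * Real.log X / Real.log (Real.log X) := Nat.floor_le (by positivity)
  have hw2 : (w : ℝ) * Real.log (Real.log X) ≤ ρ * Real.log X := by
    rwa [le_div_iff₀ (by linarith)] at hw1
  have hw3 : (w : ℝ) ≤ Real.log X := by
    have h1 : (w : ℝ) * 1 ≤ (w : ℝ) * Real.log (Real.log X) :=
      mul_le_mul_of_nonneg_left hll (Nat.cast_nonneg _)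
    have h2 : ρ * Real.log X ≤ 1 * Real.log X := mul_le_mul_of_nonneg_right hρ1 hlog0.le
    linarith
  set e : ℕ := ⌈Real.log X ^ K⌉₊ with he
  set Bd : ℕ := ⌈X ^ (30 : ℝ)⌉₊ with hBd
  have hBd1 : Real.log X ^ (K' + 1) ≤ (Bd : ℝ) := hev1.trans (Nat.le_ceil _)
  have hBd2 : (Bd : ℝ) ≤ X ^ 62 := by
    have h1 : (Bd : ℝ) < X ^ (30 : ℝ) + 1 := Nat.ceil_lt_add_one (by positivity)
    have h2 : X ^ (30 : ℝ) = X ^ (30 : ℕ) := by
      rw [← Real.rpow_natCast]; norm_num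
    rw [h2] at h1
    have h3 : (1 : ℝ) ≤ X ^ 30 := one_le_pow₀ hX1
    have h4 : (2 : ℝ) ≤ X ^ 32 := by
      calc (2 : ℝ) ≤ X := hX2
        _ = X ^ 1 := (pow_one X).symm
        _ ≤ X ^ 32 := pow_le_pow_right₀ hX1 (by norm_num)
    calc (Bd : ℝ) ≤ X ^ 30 * 2 := by linarith
      _ ≤ X ^ 30 * X ^ 32 := mul_le_mul_of_nonneg_left h4 (by positivity)
      _ = X ^ 62 := by rw [← pow_add]
  -- the number of pairs (m, R)
  have hFF : ∀ (q : ℕ) (S : Finset ℕ), q.Prime → (q : ℝ) ≤ X →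
      (∀ p ∈ S, p.Prime ∧ p ≠ q ∧ (p : ℝ) ≤ X) → S.card ≤ w →
      ((FF X K' e Bd h w q S).card : ℝ) ≤ X ^ ((K' + 10) * ρ) := by
    intro q S hq hqX hS hSw
    have hSw' : (S.card : ℝ) ≤ w := by exact_mod_cast hSw
    have h1 := hcng X q e Bd w S (FF X K' e Bd h w q S) hXX1 hq hqX hBd1 hBd2 (Nat.le_ceil _) hS
      (by linarith) ?_
    · refine h1.trans ?_
      have h2 : (Real.log X ^ (K' + 10)) ^ w = X ^ ((K' + 10) * ((w : ℝ) *
          Real.log (Real.log X)) / Real.log X) := by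
        rw [Real.rpow_def_of_pos hlog0, ← Real.exp_nat_mul, Real.rpow_def_of_pos hX0]
        congr 1
        field_simp
      rw [h2]
      refine Real.rpow_le_rpow_of_exponent_le hX1 ?_
      rw [div_le_iff₀ hlog0]
      have h3 : (K' + 10) * ((w : ℝ) * Real.log (Real.log X)) ≤ (K' + 10) * (ρ * Real.log X) :=
        mul_le_mul_of_nonneg_left hw2 (by linarith)
      linarith
    · intro f hf
      unfold FF at hf
      obtain ⟨h2, h3, h4, h5, h6, h7, h8, -, h9⟩ := Finset.mem_filter.1 hf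
      exact ⟨(Finset.mem_Icc.1 (Finset.mem_product.1 h2).1).1, h3, h4, h5, h6, h7, h8, h9⟩
  -- the number of solutions
  have hSol : ∀ T : Finset ℕ, (∀ p ∈ T, p.Prime) → T.card ≤ w →
      (Sol κ T).Finite ∧ ((Sol κ T).ncard : ℝ) ≤ D * X ^ ρ := by
    intro T hT hTw
    obtain ⟨h1, h2⟩ := hqr T hT
    refine ⟨h1, h2.trans ?_⟩
    have h3 : D ^ (T.card + 1) ≤ D ^ (w + 1) := pow_le_pow_right₀ hD (by omega)
    refine h3.trans ?_
    rw [pow_succ, mul_comm]
    refine mul_le_mul_of_nonneg_left ?_ (by linarith)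
    have h4 : D ^ w = Real.exp (w * Real.log D) := by
      rw [Real.exp_nat_mul, Real.exp_log (by linarith)]
    rw [h4, Real.rpow_def_of_pos hX0]
    refine Real.exp_le_exp.2 ?_
    have h5 : (w : ℝ) * Real.log D ≤ (w : ℝ) * Real.log (Real.log X) :=
      mul_le_mul_of_nonneg_left (by linarith) (Nat.cast_nonneg _)
    linarith
  -- the union
  set N : Finset ℕ := (Finset.Icc 1 ⌊X ^ (2 / 3 - c)⌋₊).filter fun n => n.primeFactors.card ≤ w
    with hN
  have hNcard : (N.card : ℝ) ≤ X ^ (2 / 3 - c) := by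
    have h1 : N.card ≤ ⌊X ^ (2 / 3 - c)⌋₊ := by
      calc N.card ≤ (Finset.Icc 1 ⌊X ^ (2 / 3 - c)⌋₊).card := Finset.card_filter_le _ _
        _ = ⌊X ^ (2 / 3 - c)⌋₊ := by simp
    have h2 : (N.card : ℝ) ≤ (⌊X ^ (2 / 3 - c)⌋₊ : ℝ) := by exact_mod_cast h1
    exact h2.trans (Nat.floor_le (by positivity))
  have hNX : ∀ n ∈ N, (n : ℝ) ≤ X := by
    intro n hn
    have h1 := (Finset.mem_Icc.1 (Finset.mem_filter.1 hn).1).2
    have h2 : (n : ℝ) ≤ (⌊X ^ (2 / 3 - c)⌋₊ : ℝ) := by exact_mod_cast h1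
    calc (n : ℝ) ≤ X ^ (2 / 3 - c) := h2.trans (Nat.floor_le (by positivity))
      _ ≤ X ^ (1 : ℝ) := Real.rpow_le_rpow_of_exponent_le hX1 (by linarith)
      _ = X := Real.rpow_one X
  set U : ℕ → ℕ → Set (Fin 3 → ℤ) := fun n q =>
    ⋃ f ∈ FF X K' e Bd h w q (n.primeFactors.erase q),
      Sol κ (insert q (n.primeFactors.erase q ∪ f.2)) with hU
  have hUb : ∀ n ∈ N, ∀ q ∈ n.primeFactors, (U n q).Finite ∧
      ((U n q).ncard : ℝ) ≤ X ^ ((K' + 10) * ρ) * (D * X ^ ρ) := by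
    intro n hn q hq
    have hqp := Nat.prime_of_mem_primeFactors hq
    have hn1 := (Finset.mem_Icc.1 (Finset.mem_filter.1 hn).1).1
    have hle : ∀ p ∈ n.primeFactors, (p : ℝ) ≤ X := by
      intro p hp
      have h1 : p ≤ n := Nat.le_of_dvd (by omega) (Nat.dvd_of_mem_primeFactors hp)
      have h2 : (p : ℝ) ≤ n := by exact_mod_cast h1
      exact h2.trans (hNX n hn)
    have h0 := ncard_biUnion (FF X K' e Bd h w q (n.primeFactors.erase q))
      (fun f => Sol κ (insert q (n.primeFactors.erase q ∪ f.2))) (D * X ^ ρ) ?_ ?_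
    · refine ⟨h0.1, h0.2.trans (mul_le_mul_of_nonneg_right ?_ (by positivity))⟩
      refine hFF q _ hqp (hle q hq) ?_ ?_
      · intro p hp
        obtain ⟨h1, h2⟩ := Finset.mem_erase.1 hp
        exact ⟨Nat.prime_of_mem_primeFactors h2, h1, hle p h2⟩
      · exact (Finset.card_erase_le).trans (Finset.mem_filter.1 hn).2
    · intro f hf
      unfold FF at hf
      obtain ⟨-, -, -, -, h6, -, -, h8, -⟩ := Finset.mem_filter.1 hf
      refine (hSol _ ?_ h8).1
      intro p hp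
      rcases Finset.mem_insert.1 hp with rfl | hp
      · exact hqp
      · rcases Finset.mem_union.1 hp with hp | hp
        · exact Nat.prime_of_mem_primeFactors (Finset.mem_of_mem_erase hp)
        · exact (h6 p hp).1
    · intro f hf
      unfold FF at hf
      obtain ⟨-, -, -, -, h6, -, -, h8, -⟩ := Finset.mem_filter.1 hf
      refine (hSol _ ?_ h8).2
      intro p hp
      rcases Finset.mem_insert.1 hp with rfl | hp
      · exact hqp
      · rcases Finset.mem_union.1 hp with hp | hp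
        · exact Nat.prime_of_mem_primeFactors (Finset.mem_of_mem_erase hp)
        · exact (h6 p hp).1
  have hUn : ∀ n ∈ N, (⋃ q ∈ n.primeFactors, U n q).Finite ∧
      ((⋃ q ∈ n.primeFactors, U n q).ncard : ℝ) ≤
        Real.log X * (X ^ ((K' + 10) * ρ) * (D * X ^ ρ)) := by
    intro n hn
    have h0 := ncard_biUnion n.primeFactors (U n) (X ^ ((K' + 10) * ρ) * (D * X ^ ρ))
      (fun q hq => (hUb n hn q hq).1) (fun q hq => (hUb n hn q hq).2)
    refine ⟨h0.1, h0.2.trans (mul_le_mul_of_nonneg_right ?_ (by positivity))⟩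
    have h1 : (n.primeFactors.card : ℝ) ≤ w := by exact_mod_cast (Finset.mem_filter.1 hn).2
    exact h1.trans hw3
  have hall := ncard_biUnion N (fun n => ⋃ q ∈ n.primeFactors, U n q)
    (Real.log X * (X ^ ((K' + 10) * ρ) * (D * X ^ ρ)))
    (fun n hn => (hUn n hn).1) (fun n hn => (hUn n hn).2)
  -- inclusion
  have hsub : {x | x ∈ Rd X ρ ∧ KG X h κ c K' K x} ⊆ ⋃ n ∈ N, ⋃ q ∈ n.primeFactors, U n q := by
    rintro x ⟨hR, q, m, S, R, hq, hqS, hqR, hSR, hTsub, hRh, hY, hm1, hmq, hmsub, hmd, hml, hD', hx⟩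
    obtain ⟨hA, hpdX, -, -, hcard⟩ := hR
    have hprw : (pr x).primeFactors.card ≤ w := by
      refine Nat.le_floor ?_
      rw [le_div_iff₀ (by linarith)]
      exact hcard
    have hpX : ∀ p ∈ (pr x).primeFactors, (p : ℝ) ≤ X := by
      intro p hp
      have h1 : p ≤ pd (pr x).primeFactors := by
        refine Nat.le_of_dvd (Pool.Agent.H18.AB.pd_pf_pos _) ?_
        exact Finset.dvd_prod_of_mem (fun p : ℕ => p) hp
      have h2 : (p : ℝ) ≤ pd (pr x).primeFactors := by exact_mod_cast h1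
      exact h2.trans hpdX
    have hTp : ∀ p ∈ insert q (S ∪ R), p.Prime := fun p hp =>
      Nat.prime_of_mem_primeFactors (hTsub hp)
    have hSp : ∀ p ∈ S, p.Prime := fun p hp =>
      hTp p (Finset.mem_insert_of_mem (Finset.mem_union_left _ hp))
    have hRp : ∀ p ∈ R, p.Prime := fun p hp =>
      hTp p (Finset.mem_insert_of_mem (Finset.mem_union_right _ hp))
    have hqSp : ∀ p ∈ insert q S, p.Prime := by
      intro p hp
      rcases Finset.mem_insert.1 hp with rfl | hp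
      · exact hq
      · exact hSp p hp
    have hnpf : (pd (insert q S)).primeFactors = insert q S := by
      unfold pd
      exact Nat.primeFactors_prod hqSp
    have hpdn : pd (insert q S) = q * pd S := by
      unfold pd
      rw [Finset.prod_insert hqS]
    have hn0 : 0 < pd (insert q S) := Pool.Agent.H18.AB.pd_pos hqSp
    have hnN : pd (insert q S) ∈ N := by
      refine Finset.mem_filter.2 ⟨Finset.mem_Icc.2 ⟨hn0, ?_⟩, ?_⟩
      · refine Nat.le_floor ?_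
        rw [hpdn]
        push_cast
        exact hY
      · rw [hnpf]
        refine (Finset.card_le_card ?_).trans hprw
        intro p hp
        rcases Finset.mem_insert.1 hp with rfl | hp
        · exact hTsub (Finset.mem_insert_self _ _)
        · exact hTsub (Finset.mem_insert_of_mem (Finset.mem_union_left _ hp))
    refine Set.mem_biUnion (x := pd (insert q S)) hnN ?_
    refine Set.mem_biUnion (x := q) ?_ ?_
    · rw [hnpf]
      exact Finset.mem_insert_self _ _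
    have her : (pd (insert q S)).primeFactors.erase q = S := by
      rw [hnpf, Finset.erase_insert hqS]
    rw [hU]
    simp only
    rw [her]
    refine Set.mem_biUnion (x := (m, R)) ?_ hx
    unfold FF
    refine Finset.mem_filter.2 ⟨Finset.mem_product.2 ⟨Finset.mem_Icc.2 ⟨hm1, ?_⟩,
      Finset.mem_powerset.2 ?_⟩, hml, hmq, ?_, ?_, hRh, ?_, ?_, hD'⟩
    · refine Nat.le_floor ?_
      have h1 : (0 : ℝ) < m := by exact_mod_cast hm1
      rw [← Real.exp_log h1]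
      exact Real.exp_le_exp.2 hml
    · intro p hp
      refine Finset.mem_range.2 (Nat.lt_succ_of_le (Nat.le_floor ?_))
      exact hpX p (hTsub (Finset.mem_insert_of_mem (Finset.mem_union_right _ hp)))
    · intro p hp
      have h1 : p ∉ S ∪ R := Finset.disjoint_left.1 hmd hp
      rw [Finset.mem_union, not_or] at h1
      exact ⟨h1.1, h1.2, hpX p (hmsub (Finset.mem_union_left _ hp))⟩
    · intro p hp
      refine ⟨hRp p hp, ?_, ?_, ?_⟩
      · rintro rfl
        exact hqR hp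
      · exact Finset.disjoint_right.1 hSR hp
      · exact hpX p (hTsub (Finset.mem_insert_of_mem (Finset.mem_union_right _ hp)))
    · have h1 : Disjoint m.primeFactors R := by
        rw [Finset.disjoint_union_right] at hmd
        exact hmd.2
      change m.primeFactors.card + R.card ≤ w
      rw [← Finset.card_union_of_disjoint h1]
      exact (Finset.card_le_card hmsub).trans hprw
    · exact (Finset.card_le_card hTsub).trans hprw
  refine ⟨hall.1.subset hsub, ?_⟩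
  have h1 : ({x | x ∈ Rd X ρ ∧ KG X h κ c K' K x}.ncard : ℝ) ≤
      ((⋃ n ∈ N, ⋃ q ∈ n.primeFactors, U n q).ncard : ℝ) := by
    exact_mod_cast Set.ncard_le_ncard hsub hall.1
  refine (h1.trans hall.2).trans ?_
  have h2 : Real.log X ≤ X ^ ρ / ρ := Real.log_le_rpow_div hX0.le hρ0
  calc (N.card : ℝ) * (Real.log X * (X ^ ((K' + 10) * ρ) * (D * X ^ ρ))) ≤
        X ^ (2 / 3 - c) * ((X ^ ρ / ρ) * (X ^ ((K' + 10) * ρ) * (D * X ^ ρ))) := by
        refine mul_le_mul hNcard (mul_le_mul_of_nonneg_right h2 (by positivity))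
          (by positivity) (by positivity)
    _ = D / ρ * X ^ (2 / 3 - c + (K' + 12) * ρ) := by
        have e1 : X ^ (2 / 3 - c + (K' + 12) * ρ) =
            X ^ (2 / 3 - c) * (X ^ ρ * (X ^ ((K' + 10) * ρ) * X ^ ρ)) := by
          rw [← Real.rpow_add hX0, ← Real.rpow_add hX0, ← Real.rpow_add hX0]
          congr 1
          ring
        rw [e1]
        ring
    _ ≤ D / ρ * X ^ (2 / 3 - min (c / 2) (1 / 2)) := by
        refine mul_le_mul_of_nonneg_left (Real.rpow_le_rpow_of_exponent_le hX1 ?_)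
          (by positivity)
        have h3 : min (c / 2) (1 / 2) ≤ c / 2 := min_le_left _ _
        linarith

end Pool.Agent.H39.AG
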